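import Mathlib

/-!
The Turán density of the three-edge `r`-graph `S^r K_3^2` on `r + 1` vertices has order `1 / r`.

Lower bound. Take a prime `p` with `2 r < p ≤ 4 r` and `N = 2 r ^ 2` labels; label `i` carries a
vector `v i` of the space `(ZMod p) ^ (r - 1)` and a weight `τ i` in `ZMod p`.
A set `e` of `r` labels in general position has, up to scalars, exactly one linear relation `c`,
and all coefficients of `c` are nonzero. Let `e` be a preliminary edge when `∑ τ i * c i ^ 2 = 0`.
For a set `S` of `r + 1` labels that contains a preliminary edge, the relation space is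
two-dimensional, and every preliminary edge `S.erase x` gives a zero of the quadratic form on the
projective line of relations; these zeros are distinct. So there are at most two, unless the form
vanishes identically. Given the preliminary edge `e`, a random further label makes the form vanish
with probability `1 / p ^ 2`, and `N / p ^ 2 ≤ 1 / 2`. So deleting all edges that lie in such sets
keeps a positive proportion of them, and every set has a chance at least `1 / (8 p)` of being an
edge. Finally blow up the labels (random labelling of `n` vertices).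
-/

namespace Pool.Agent.Results.MP_7618c8_co.Theta

open Finset Filter Topology

/-! ### relations between vectors -/

section algebra

variable (F : Type*) {ι V : Type*} [Field F] [DecidableEq ι] [AddCommGroup V] [Module F V]

/-- `c` is a linear relation between the vectors `v i`, `i ∈ e` -/
def Rel {F : Type*} [Field F] [Module F V] (v : ι → V) (e : Finset ι) (c : ι → F) : Prop :=
  ∑ i ∈ e, c i • v i = 0

/-- general position: a relation on `e` that vanishes somewhere on `e` vanishes on all of `e` -/
def GP (v : ι → V) (e : Finset ι) : Prop :=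
  ∀ c : ι → F, Rel v e c → (∃ i ∈ e, c i = 0) → ∀ i ∈ e, c i = 0

/-- some nonzero relation on `e` is isotropic for the diagonal quadratic form given by `τ` -/
def Iso {F : Type*} [Field F] [Module F V] (v : ι → V) (τ : ι → F) (e : Finset ι) : Prop :=
  ∃ c : ι → F, Rel v e c ∧ (∃ i ∈ e, c i ≠ 0) ∧ ∑ i ∈ e, τ i * c i ^ 2 = 0

/-- the preliminary edges -/
def E0 {F : Type*} [Field F] [Module F V] (v : ι → V) (τ : ι → F) (e : Finset ι) : Prop :=
  GP F v e ∧ Iso v τ e ∧ ∃ i ∈ e, τ i ≠ 0

/-- labels whose addition to `e` creates a totally isotropic relation space -/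
def BadLab {F : Type*} [Field F] [Module F V] (v : ι → V) (τ : ι → F) (e : Finset ι)
    (w : V) (s : F) : Prop :=
  ∃ c d : ι → F, Rel v e c ∧ (∃ i ∈ e, c i ≠ 0) ∧ w = ∑ i ∈ e, d i • v i ∧
    ∑ i ∈ e, τ i * c i * d i = 0 ∧ ∑ i ∈ e, τ i * d i ^ 2 + s = 0

/-- the edges -/
def E1 {F : Type*} [Field F] [Module F V] (v : ι → V) (τ : ι → F) (e : Finset ι) : Prop :=
  E0 v τ e ∧ ∀ x, x ∉ e → ¬ BadLab v τ e (v x) (τ x)

variable {F}

lemma GP.ne_zero {v : ι → V} {e : Finset ι} (h : GP F v e) {c : ι → F} (hc : Rel v e c)
    (hne : ∃ i ∈ e, c i ≠ 0) : ∀ i ∈ e, c i ≠ 0 := by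
  intro i hi h0
  obtain ⟨j, hj, hj0⟩ := hne
  exact hj0 (h c hc ⟨i, hi, h0⟩ j hj)

lemma Rel.comb {v : ι → V} {e : Finset ι} {c c' : ι → F} (hc : Rel v e c) (hc' : Rel v e c')
    (μ : F) : Rel v e (fun i => c' i - μ * c i) := by
  unfold Rel at *
  simp only [sub_smul, mul_smul, Finset.sum_sub_distrib, ← Finset.smul_sum]
  rw [hc, hc']
  simp

lemma GP.unique {v : ι → V} {e : Finset ι} (h : GP F v e) {c c' : ι → F} (hc : Rel v e c)
    (hne : ∃ i ∈ e, c i ≠ 0) (hc' : Rel v e c') : ∃ μ : F, ∀ i ∈ e, c' i = μ * c i := by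
  have h1 := h.ne_zero hc hne
  obtain ⟨j, hj, hj0⟩ := hne
  refine ⟨c' j / c j, ?_⟩
  have h2 := h _ (hc.comb hc' (c' j / c j)) ⟨j, hj, by field_simp; simp⟩
  intro i hi
  have := h2 i hi
  linear_combination this

lemma ext_rel {v : ι → V} {τ : ι → F} {S : Finset ι} {x : ι} (hx : x ∈ S)
    (h : E0 v τ (S.erase x)) : ∃ k : ι → F, k x = 0 ∧ (∀ i ∈ S, i ≠ x → k i ≠ 0) ∧
      ∑ i ∈ S, k i • v i = 0 ∧ ∑ i ∈ S, τ i * k i ^ 2 = 0 := by
  obtain ⟨hgp, ⟨c, hc, hne, hq⟩, _⟩ := h
  have h1 := hgp.ne_zero hc hne
  refine ⟨Function.update c x 0, by simp, ?_, ?_, ?_⟩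
  · intro i hi hix
    rw [Function.update_of_ne hix]
    exact h1 i (Finset.mem_erase.2 ⟨hix, hi⟩)
  · rw [← Finset.add_sum_erase _ _ hx]
    simp only [Function.update_self, zero_smul, zero_add]
    unfold Rel at hc
    rw [← hc]
    apply Finset.sum_congr rfl
    intro i hi
    rw [Function.update_of_ne (Finset.ne_of_mem_erase hi)]
  · rw [← Finset.add_sum_erase _ _ hx]
    simp only [Function.update_self]
    have : ∑ i ∈ S.erase x, τ i * Function.update c x 0 i ^ 2 = ∑ i ∈ S.erase x, τ i * c i ^ 2 := by
      apply Finset.sum_congr rfl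
      intro i hi
      rw [Function.update_of_ne (Finset.ne_of_mem_erase hi)]
    rw [this, hq]
    ring

/-- no set contains three edges obtained by deleting one element -/
lemma three (h2 : (2 : F) ≠ 0) {v : ι → V} {τ : ι → F} {S : Finset ι} {x y z : ι}
    (hx : x ∈ S) (hy : y ∈ S) (hz : z ∈ S) (hxy : x ≠ y) (hyz : y ≠ z) (hxz : x ≠ z)
    (h1x : E1 v τ (S.erase x)) (h1y : E1 v τ (S.erase y)) (h1z : E1 v τ (S.erase z)) : False := by
  obtain ⟨kx, kx0, kxn, kxr, kxq⟩ := ext_rel hx h1x.1
  obtain ⟨ky, ky0, kyn, kyr, kyq⟩ := ext_rel hy h1y.1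
  obtain ⟨kz, kz0, kzn, kzr, kzq⟩ := ext_rel hz h1z.1
  have a1 : kx y ≠ 0 := kxn y hy hxy.symm
  have a2 : ky x ≠ 0 := kyn x hx hxy
  have a3 : kz x ≠ 0 := kzn x hx hxz
  have a4 : kz y ≠ 0 := kzn y hy hyz
  set α := kz y / kx y with hα
  set β := kz x / ky x with hβ
  have hα0 : α ≠ 0 := div_ne_zero a4 a1
  have hβ0 : β ≠ 0 := div_ne_zero a3 a2
  have hm : Rel v (S.erase x) (fun i => kz i - α * kx i - β * ky i) := by
    unfold Rel
    have h0 : ∑ i ∈ S, (kz i - α * kx i - β * ky i) • v i = 0 := by
      simp only [sub_smul, mul_smul, Finset.sum_sub_distrib, ← Finset.smul_sum]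
      rw [kxr, kyr, kzr]
      simp
    rw [← Finset.add_sum_erase _ _ hx] at h0
    have hz0 : kz x - α * kx x - β * ky x = 0 := by
      rw [kx0, hβ]; field_simp; ring
    rw [hz0, zero_smul, zero_add] at h0
    exact h0
  have hy' : y ∈ S.erase x := Finset.mem_erase.2 ⟨hxy.symm, hy⟩
  have hmy : (fun i => kz i - α * kx i - β * ky i) y = 0 := by
    simp only
    rw [ky0, hα]; field_simp; ring
  have hall := h1x.1.1 _ hm ⟨y, hy', hmy⟩
  have hS : ∀ i ∈ S, kz i = α * kx i + β * ky i := by
    intro i hi
    by_cases hix : i = x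
    · rw [hix, kx0, hβ]; field_simp; ring
    · have := hall i (Finset.mem_erase.2 ⟨hix, hi⟩)
      linear_combination this
  have hB : ∑ i ∈ S, τ i * kx i * ky i = 0 := by
    have e1 : ∑ i ∈ S, τ i * kz i ^ 2 = α ^ 2 * ∑ i ∈ S, τ i * kx i ^ 2 +
        2 * α * β * ∑ i ∈ S, τ i * kx i * ky i + β ^ 2 * ∑ i ∈ S, τ i * ky i ^ 2 := by
      rw [Finset.mul_sum, Finset.mul_sum, Finset.mul_sum, ← Finset.sum_add_distrib,
        ← Finset.sum_add_distrib]
      apply Finset.sum_congr rfl
      intro i hi
      rw [hS i hi]
      ring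
    rw [kxq, kyq, kzq] at e1
    have e2 : 2 * α * β * ∑ i ∈ S, τ i * kx i * ky i = 0 := by linear_combination -e1
    rcases mul_eq_zero.1 e2 with h | h
    · exact absurd h (mul_ne_zero (mul_ne_zero h2 hα0) hβ0)
    · exact h
  apply h1x.2 x (by simp)
  refine ⟨kx, fun i => -(ky i / ky x), ?_, ⟨y, hy', a1⟩, ?_, ?_, ?_⟩
  · unfold Rel
    rw [← Finset.add_sum_erase _ _ hx, kx0, zero_smul, zero_add] at kxr
    exact kxr
  · rw [← Finset.add_sum_erase _ _ hx] at kyr
    have : ∑ i ∈ S.erase x, (-(ky i / ky x)) • v i = -((ky x)⁻¹ • ∑ i ∈ S.erase x, ky i • v i) := by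
      rw [Finset.smul_sum, ← Finset.sum_neg_distrib]
      apply Finset.sum_congr rfl
      intro i _
      rw [neg_smul, smul_smul, div_eq_inv_mul]
    rw [this]
    have h3 : ∑ i ∈ S.erase x, ky i • v i = -(ky x • v x) := by
      rw [eq_neg_iff_add_eq_zero, add_comm]; exact kyr
    rw [h3, smul_neg, smul_smul, inv_mul_cancel₀ a2, one_smul, neg_neg]
  · rw [← Finset.add_sum_erase _ _ hx, kx0] at hB
    have : ∑ i ∈ S.erase x, τ i * kx i * (-(ky i / ky x)) =
        -((ky x)⁻¹ * ∑ i ∈ S.erase x, τ i * kx i * ky i) := by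
      rw [Finset.mul_sum, ← Finset.sum_neg_distrib]
      apply Finset.sum_congr rfl
      intro i _
      rw [div_eq_mul_inv]; ring
    rw [this]
    have h3 : ∑ i ∈ S.erase x, τ i * kx i * ky i = 0 := by linear_combination hB
    rw [h3]; ring
  · rw [← Finset.add_sum_erase _ _ hx] at kyq
    have : ∑ i ∈ S.erase x, τ i * (-(ky i / ky x)) ^ 2 =
        ((ky x)⁻¹) ^ 2 * ∑ i ∈ S.erase x, τ i * ky i ^ 2 := by
      rw [Finset.mul_sum]
      apply Finset.sum_congr rfl
      intro i _
      rw [div_eq_mul_inv]; ring
    rw [this]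
    have h3 : ∑ i ∈ S.erase x, τ i * ky i ^ 2 = -(τ x * ky x ^ 2) := by linear_combination kyq
    rw [h3]
    field_simp
    ring

end algebra

/-! ### counting labellings -/

section counting

variable {F ι V : Type*} [Field F] [Fintype F] [DecidableEq F] [Fintype ι] [DecidableEq ι]
  [AddCommGroup V] [Module F V] [Fintype V] [DecidableEq V]

open Classical in
/-- a given nonzero relation holds with probability at most `1 / |V|` -/
lemma count_rel (e : Finset ι) (c : ι → F) (j : ι) (hj : j ∈ e) (hc : c j ≠ 0) :
    Fintype.card V * (univ.filter (fun v : ι → V => Rel v e c)).card ≤ Fintype.card (ι → V) := by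
  have h : ((univ : Finset V) ×ˢ (univ.filter (fun v : ι → V => Rel v e c))).card ≤
      (univ : Finset (ι → V)).card := by
    apply Finset.card_le_card_of_injOn (fun q => Function.update q.2 j (q.2 j + q.1))
    · intro q _
      simp
    · rintro ⟨w, v⟩ h1 ⟨w', v'⟩ h2 h
      have h1 : Rel v e c := by simpa using h1
      have h2 : Rel v' e c := by simpa using h2
      simp only at h
      have hsum : ∀ (w : V) (v : ι → V), Rel v e c →
          ∑ i ∈ e, c i • (Function.update v j (v j + w)) i = c j • w := by
        intro w v hv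
        unfold Rel at hv
        rw [← Finset.add_sum_erase _ _ hj] at hv ⊢
        rw [Function.update_self]
        have : ∑ i ∈ e.erase j, c i • (Function.update v j (v j + w)) i =
            ∑ i ∈ e.erase j, c i • v i := by
          apply Finset.sum_congr rfl
          intro i hi
          rw [Function.update_of_ne (Finset.ne_of_mem_erase hi)]
        rw [this, smul_add]
        rw [show c j • v j + c j • w + ∑ i ∈ e.erase j, c i • v i =
          (c j • v j + ∑ i ∈ e.erase j, c i • v i) + c j • w by abel, hv, zero_add]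
      have hw : w = w' := by
        have e1 := hsum w v h1
        have e2 := hsum w' v' h2
        rw [h, e2] at e1
        exact (smul_right_injective V hc e1).symm
      have hvv : v = v' := by
        funext i
        by_cases hij : i = j
        · have := congrFun h j
          rw [Function.update_self, Function.update_self, hw] at this
          rw [hij]
          exact add_right_cancel this
        · have := congrFun h i
          rwa [Function.update_of_ne hij, Function.update_of_ne hij] at this
      rw [hw, hvv]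
  rw [Finset.card_product, Finset.card_univ, Finset.card_univ] at h
  exact h

/-- extension by zero of a function on a finset -/
noncomputable def extz (e : Finset ι) (c : e → F) : ι → F :=
  fun i => if h : i ∈ e then c ⟨i, h⟩ else 0

lemma extz_apply (e : Finset ι) (c : e → F) (i : ι) (h : i ∈ e) : extz e c i = c ⟨i, h⟩ := by
  unfold extz; rw [dif_pos h]

open Classical in
lemma count_ngp_aux (e : Finset ι) (i : ι) (hi : i ∈ e)
    (hcard : Fintype.card F ^ (e.card - 1) = Fintype.card V) :
    (Fintype.card F - 1) * (univ.filter (fun v : ι → V =>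
      ∃ c : ι → F, Rel v e c ∧ c i = 0 ∧ ∃ j ∈ e, c j ≠ 0)).card ≤ Fintype.card (ι → V) := by
  -- relations supported on `e.erase i`
  set NG := univ.filter (fun v : ι → V => ∃ c : ι → F, Rel v e c ∧ c i = 0 ∧ ∃ j ∈ e, c j ≠ 0)
    with hNG
  set e' := e.erase i with he'
  let C : Finset (e' → F) := univ.filter (fun c => c ≠ 0)
  have hcardV : 0 < Fintype.card V := Fintype.card_pos
  have hcardC : C.card ≤ Fintype.card V := by
    refine (Finset.card_filter_le _ _).trans ?_
    rw [Finset.card_univ, Fintype.card_fun, Fintype.card_coe, he', Finset.card_erase_of_mem hi,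
      hcard]
  have hrelc : ∀ (v : ι → V) (c : e' → F), Rel v e (extz e' c) ↔ Rel v e' (extz e' c) := by
    intro v c
    unfold Rel
    rw [← Finset.add_sum_erase _ _ hi]
    have : extz e' c i = 0 := by
      unfold extz
      rw [dif_neg]
      simp [he']
    rw [this, zero_smul, zero_add]
  have h1 : ∀ c ∈ C, Fintype.card V * (univ.filter (fun v : ι → V => Rel v e (extz e' c))).card ≤
      Fintype.card (ι → V) := by
    intro c hc
    simp only [C, mem_filter, mem_univ, true_and] at hc
    obtain ⟨⟨j, hj⟩, hj0⟩ := Function.ne_iff.1 hc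
    have hje : j ∈ e := Finset.mem_of_mem_erase hj
    apply count_rel e (extz e' c) j hje
    rw [extz_apply e' c j hj]
    exact hj0
  have h2 : ∑ c ∈ C, (univ.filter (fun v : ι → V => Rel v e (extz e' c))).card ≤
      Fintype.card (ι → V) := by
    have : Fintype.card V * ∑ c ∈ C, (univ.filter (fun v : ι → V => Rel v e (extz e' c))).card ≤
        Fintype.card V * Fintype.card (ι → V) := by
      rw [Finset.mul_sum]
      refine (Finset.sum_le_sum h1).trans ?_
      rw [Finset.sum_const, smul_eq_mul]
      exact Nat.mul_le_mul_right _ hcardC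
    exact Nat.le_of_mul_le_mul_left this hcardV
  have h3 : ∑ c ∈ C, (univ.filter (fun v : ι → V => Rel v e (extz e' c))).card =
      ∑ v : ι → V, (C.filter (fun c => Rel v e (extz e' c))).card := by
    simp only [Finset.card_filter]
    rw [Finset.sum_comm]
  have h4 : ∀ v ∈ NG, Fintype.card F - 1 ≤ (C.filter (fun c => Rel v e (extz e' c))).card := by
    intro v hv
    simp only [hNG, mem_filter, mem_univ, true_and] at hv
    obtain ⟨c, hc, hci, j, hj, hj0⟩ := hv
    have hji : j ≠ i := fun h => hj0 (h ▸ hci)
    have hj' : j ∈ e' := Finset.mem_erase.2 ⟨hji, hj⟩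
    rw [← Fintype.card_units, ← Finset.card_univ]
    apply Finset.card_le_card_of_injOn (fun (a : Fˣ) => fun k : e' => (a : F) * c k)
    · intro a _
      simp only [C, coe_filter, mem_filter, mem_univ, true_and, Set.mem_ofPred_eq]
      constructor
      · intro h
        have := congrFun h ⟨j, hj'⟩
        simp only [Pi.zero_apply, mul_eq_zero, Units.ne_zero, false_or] at this
        exact hj0 this
      · unfold Rel at hc ⊢
        have : ∑ k ∈ e, extz e' (fun k : e' => (a : F) * c k) k • v k =
            ∑ k ∈ e, (a : F) • (c k • v k) := by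
          apply Finset.sum_congr rfl
          intro k hk
          by_cases hki : k = i
          · have : extz e' (fun k : e' => (a : F) * c k) k = 0 := by
              unfold extz
              rw [dif_neg]
              simp [he', hki]
            rw [this, hki, hci]
            simp
          · rw [extz_apply _ _ k (Finset.mem_erase.2 ⟨hki, hk⟩), smul_smul]
        rw [this, ← Finset.smul_sum, hc, smul_zero]
    · intro a _ b _ hab
      have := congrFun hab ⟨j, hj'⟩
      simp only at this
      have := mul_right_cancel₀ hj0 this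
      exact Units.ext this
  calc (Fintype.card F - 1) * NG.card = ∑ v ∈ NG, (Fintype.card F - 1) := by
        rw [Finset.sum_const, smul_eq_mul, mul_comm]
    _ ≤ ∑ v ∈ NG, (C.filter (fun c => Rel v e (extz e' c))).card := Finset.sum_le_sum h4
    _ ≤ ∑ v : ι → V, (C.filter (fun c => Rel v e (extz e' c))).card :=
        Finset.sum_le_sum_of_subset (Finset.subset_univ _)
    _ ≤ Fintype.card (ι → V) := by rw [← h3]; exact h2

open Classical in
/-- at least half of all labellings by vectors are in general position on `e` -/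
lemma count_gp (e : Finset ι) (he : 2 * e.card ≤ Fintype.card F - 1)
    (hpos : 0 < e.card)
    (hcard : Fintype.card F ^ (e.card - 1) = Fintype.card V) :
    Fintype.card (ι → V) ≤ 2 * (univ.filter (fun v : ι → V => GP F v e)).card := by
  have h1 : (univ.filter (fun v : ι → V => ¬ GP F v e)) ⊆ e.biUnion (fun i =>
      univ.filter (fun v : ι → V => ∃ c : ι → F, Rel v e c ∧ c i = 0 ∧ ∃ j ∈ e, c j ≠ 0)) := by
    intro v hv
    have hv := (Finset.mem_filter.1 hv).2
    unfold GP at hv
    push Not at hv
    obtain ⟨c, hc, ⟨i, hi, hci⟩, j, hj, hj0⟩ := hv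
    simp only [mem_biUnion, mem_filter, mem_univ, true_and]
    exact ⟨i, hi, c, hc, hci, j, hj, hj0⟩
  have h2 : (Fintype.card F - 1) * (univ.filter (fun v : ι → V => ¬ GP F v e)).card ≤
      e.card * Fintype.card (ι → V) := by
    refine (Nat.mul_le_mul_left _ ((Finset.card_le_card h1).trans Finset.card_biUnion_le)).trans ?_
    rw [Finset.mul_sum]
    refine (Finset.sum_le_sum (fun i hi => count_ngp_aux e i hi hcard)).trans ?_
    rw [Finset.sum_const, smul_eq_mul]
  have h3 : e.card * (2 * (univ.filter (fun v : ι → V => ¬ GP F v e)).card) ≤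
      e.card * Fintype.card (ι → V) := by
    calc e.card * (2 * (univ.filter (fun v : ι → V => ¬ GP F v e)).card)
        = (2 * e.card) * (univ.filter (fun v : ι → V => ¬ GP F v e)).card := by ring
      _ ≤ (Fintype.card F - 1) * (univ.filter (fun v : ι → V => ¬ GP F v e)).card :=
          Nat.mul_le_mul_right _ he
      _ ≤ _ := h2
  have h4 := Nat.le_of_mul_le_mul_left h3 hpos
  have h5 := Finset.card_filter_add_card_filter_not (s := (univ : Finset (ι → V)))
    (fun v => GP F v e)
  rw [Finset.card_univ] at h5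
  omega

open Classical in
/-- for given vectors in general position, many weights make `e` a preliminary edge -/
lemma count_tau (v : ι → V) (e : Finset ι) (he2 : 2 ≤ e.card) (hgp : GP F v e)
    (hcard : Fintype.card F ^ (e.card - 1) = Fintype.card V) :
    Fintype.card (ι → F) ≤ 2 * Fintype.card F *
      (univ.filter (fun τ : ι → F => E0 v τ e)).card := by
  -- a nonzero relation exists
  obtain ⟨c, hc, hne⟩ : ∃ c : ι → F, Rel v e c ∧ ∃ i ∈ e, c i ≠ 0 := by
    have hlt : Fintype.card V < Fintype.card (e → F) := by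
      rw [Fintype.card_fun, Fintype.card_coe, ← hcard]
      exact Nat.pow_lt_pow_right Fintype.one_lt_card (by omega)
    obtain ⟨a, b, hab, heq⟩ := Fintype.exists_ne_map_eq_of_card_lt
      (fun c : e → F => ∑ i ∈ e, extz e c i • v i) hlt
    refine ⟨extz e (a - b), ?_, ?_⟩
    · unfold Rel
      have : ∑ i ∈ e, extz e (a - b) i • v i =
          ∑ i ∈ e, extz e a i • v i - ∑ i ∈ e, extz e b i • v i := by
        rw [← Finset.sum_sub_distrib]
        apply Finset.sum_congr rfl
        intro i hi
        rw [extz_apply _ _ _ hi, extz_apply _ _ _ hi, extz_apply _ _ _ hi, ← sub_smul]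
        rfl
      rw [this]
      rw [heq, sub_self]
    · obtain ⟨⟨j, hj⟩, hj0⟩ := Function.ne_iff.1 hab
      refine ⟨j, hj, ?_⟩
      rw [extz_apply _ _ _ hj]
      exact sub_ne_zero.2 hj0
  have hne' := hgp.ne_zero hc hne
  obtain ⟨j, k, hj, hk, hjk⟩ : ∃ j k, j ∈ e ∧ k ∈ e ∧ j ≠ k := by
    obtain ⟨j, hj, k, hk, hjk⟩ := Finset.one_lt_card.1 (show 1 < e.card by omega)
    exact ⟨j, k, hj, hk, hjk⟩
  set T0 := univ.filter (fun τ : ι → F => ∑ i ∈ e, τ i * c i ^ 2 = 0) with hT0
  set T00 := univ.filter (fun τ : ι → F => ∀ i ∈ e, τ i = 0) with hT00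
  have h1 : Fintype.card (ι → F) ≤ Fintype.card F * T0.card := by
    have h : (univ : Finset (ι → F)).card ≤ ((univ : Finset F) ×ˢ T0).card := by
      apply Finset.card_le_card_of_injOn (fun τ => (∑ i ∈ e, τ i * c i ^ 2,
        Function.update τ j (τ j - (∑ i ∈ e, τ i * c i ^ 2) / c j ^ 2)))
      · intro τ _
        simp only [coe_product, coe_univ, Set.mem_prod, Set.mem_univ, true_and, hT0, coe_filter,
          mem_univ, Set.mem_ofPred_eq]
        rw [← Finset.add_sum_erase _ _ hj, Function.update_self]
        have h3 : ∑ i ∈ e.erase j, Function.update τ j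
            (τ j - (∑ i ∈ e, τ i * c i ^ 2) / c j ^ 2) i * c i ^ 2 =
            ∑ i ∈ e.erase j, τ i * c i ^ 2 := by
          apply Finset.sum_congr rfl
          intro i hi
          rw [Function.update_of_ne (Finset.ne_of_mem_erase hi)]
        rw [h3]
        have h4 := Finset.add_sum_erase e (fun i => τ i * c i ^ 2) hj
        have hcj := hne' j hj
        field_simp
        linear_combination h4
      · intro τ _ τ' _ h
        simp only [Prod.mk.injEq] at h
        obtain ⟨h5, h6⟩ := h
        funext i
        by_cases hij : i = j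
        · have := congrFun h6 j
          rw [Function.update_self, Function.update_self, h5] at this
          rw [hij]
          exact sub_left_injective this
        · have := congrFun h6 i
          rwa [Function.update_of_ne hij, Function.update_of_ne hij] at this
    rw [Finset.card_product, Finset.card_univ, Finset.card_univ] at h
    exact h
  have h2 : Fintype.card F * Fintype.card F * T00.card ≤ Fintype.card (ι → F) := by
    have h : (((univ : Finset F) ×ˢ (univ : Finset F)) ×ˢ T00).card ≤
        (univ : Finset (ι → F)).card := by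
      apply Finset.card_le_card_of_injOn
        (fun q => Function.update (Function.update q.2 j q.1.1) k q.1.2)
      · intro q _
        simp
      · rintro ⟨⟨a, b⟩, τ⟩ h1 ⟨⟨a', b'⟩, τ'⟩ h2 h
        have h1 : ∀ i ∈ e, τ i = 0 := by simpa [hT00] using h1
        have h2 : ∀ i ∈ e, τ' i = 0 := by simpa [hT00] using h2
        simp only at h
        have ha : a = a' := by
          have := congrFun h j
          rw [Function.update_of_ne hjk, Function.update_of_ne hjk, Function.update_self,
            Function.update_self] at this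
          exact this
        have hb : b = b' := by
          have := congrFun h k
          rw [Function.update_self, Function.update_self] at this
          exact this
        have hτ : τ = τ' := by
          funext i
          by_cases hij : i = j
          · rw [hij, h1 j hj, h2 j hj]
          · by_cases hik : i = k
            · rw [hik, h1 k hk, h2 k hk]
            · have := congrFun h i
              rwa [Function.update_of_ne hik, Function.update_of_ne hik,
                Function.update_of_ne hij, Function.update_of_ne hij] at this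
        rw [ha, hb, hτ]
    rw [Finset.card_product, Finset.card_product, Finset.card_univ, Finset.card_univ] at h
    exact h
  have h3 : T0 \ T00 ⊆ univ.filter (fun τ : ι → F => E0 v τ e) := by
    intro τ hτ
    simp only [hT0, hT00, Finset.mem_sdiff, mem_filter, mem_univ, true_and, not_forall] at hτ
    obtain ⟨hq, i, hi, hi0⟩ := hτ
    simp only [mem_filter, mem_univ, true_and]
    exact ⟨hgp, ⟨c, hc, hne, hq⟩, i, hi, hi0⟩
  have h4 : T0.card ≤ (T0 \ T00).card + T00.card := by
    have := Finset.le_card_sdiff T00 T0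
    omega
  have h5 : 2 ≤ Fintype.card F := Fintype.one_lt_card
  have h6 := Finset.card_le_card h3
  set M := Fintype.card (ι → F) with hM
  set p := Fintype.card F with hp
  have h7 : 2 * (p * T00.card) ≤ M := by
    calc 2 * (p * T00.card) ≤ p * (p * T00.card) := Nat.mul_le_mul_right _ h5
      _ = p * p * T00.card := by ring
      _ ≤ M := h2
  have h8 : p * T0.card ≤ p * (T0 \ T00).card + p * T00.card := by
    rw [← Nat.mul_add]; exact Nat.mul_le_mul_left _ h4
  calc M ≤ 2 * (p * (T0 \ T00).card) := by omega
    _ ≤ 2 * (p * (univ.filter (fun τ : ι → F => E0 v τ e)).card) :=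
        Nat.mul_le_mul_left _ (Nat.mul_le_mul_left _ h6)
    _ = _ := by ring

open Classical in
lemma count_E0 (e : Finset ι) (he2 : 2 ≤ e.card) (he : 2 * e.card ≤ Fintype.card F - 1)
    (hcard : Fintype.card F ^ (e.card - 1) = Fintype.card V) :
    Fintype.card (ι → V) * Fintype.card (ι → F) ≤ 4 * Fintype.card F *
      (univ.filter (fun ω : (ι → V) × (ι → F) => E0 ω.1 ω.2 e)).card := by
  have h1 := count_gp (F := F) (V := V) e he (by omega) hcard
  have h2 : ((univ.filter (fun v : ι → V => GP F v e)).card) * Fintype.card (ι → F) ≤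
      2 * Fintype.card F *
      (univ.filter (fun ω : (ι → V) × (ι → F) => E0 ω.1 ω.2 e)).card := by
    have h3 : (univ.filter (fun ω : (ι → V) × (ι → F) => E0 ω.1 ω.2 e)).card =
        ∑ v : ι → V, (univ.filter (fun τ : ι → F => E0 v τ e)).card := by
      simp only [Finset.card_filter]
      rw [Fintype.sum_prod_type]
    rw [h3, Finset.mul_sum, ← smul_eq_mul, ← Finset.sum_const]
    refine le_trans ?_ (Finset.sum_le_sum_of_subset (Finset.filter_subset (fun v => GP F v e) univ))
    apply Finset.sum_le_sum
    intro v hv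
    exact count_tau v e he2 (by simpa using hv) hcard
  calc Fintype.card (ι → V) * Fintype.card (ι → F)
      ≤ (2 * (univ.filter (fun v : ι → V => GP F v e)).card) * Fintype.card (ι → F) :=
        Nat.mul_le_mul_right _ h1
    _ = 2 * ((univ.filter (fun v : ι → V => GP F v e)).card * Fintype.card (ι → F)) := by ring
    _ ≤ 2 * (2 * Fintype.card F *
      (univ.filter (fun ω : (ι → V) × (ι → F) => E0 ω.1 ω.2 e)).card) := Nat.mul_le_mul_left _ h2
    _ = _ := by ring

open Classical in
/-- for a preliminary edge `e`, a new label is bad with probability at most `1 / |F| ^ 2` -/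
lemma count_badlab (v : ι → V) (τ : ι → F) (e : Finset ι) (h : E0 v τ e) :
    Fintype.card F * Fintype.card F *
      (univ.filter (fun q : V × F => BadLab v τ e q.1 q.2)).card ≤ Fintype.card (V × F) := by
  obtain ⟨hgp, ⟨c₀, hc₀, hne, hq⟩, i₁, hi₁, hτ⟩ := h
  have hne' := hgp.ne_zero hc₀ hne
  have key : ∀ w s, BadLab v τ e w s → ∃ d : ι → F, w = ∑ i ∈ e, d i • v i ∧
      ∑ i ∈ e, τ i * c₀ i * d i = 0 ∧ ∑ i ∈ e, τ i * d i ^ 2 + s = 0 := by
    rintro w s ⟨c, d, hc, hcne, hw, hB, hs⟩
    refine ⟨d, hw, ?_, hs⟩
    obtain ⟨μ, hμ⟩ := hgp.unique hc hcne hc₀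
    have : ∑ i ∈ e, τ i * c₀ i * d i = μ * ∑ i ∈ e, τ i * c i * d i := by
      rw [Finset.mul_sum]
      apply Finset.sum_congr rfl
      intro i hi
      rw [hμ i hi]; ring
    rw [this, hB, mul_zero]
  have hinj : (((univ : Finset F) ×ˢ (univ : Finset F)) ×ˢ
      (univ.filter (fun q : V × F => BadLab v τ e q.1 q.2))).card ≤
      (univ : Finset (V × F)).card := by
    apply Finset.card_le_card_of_injOn
      (fun q => (q.2.1 + q.1.1 • v i₁, q.2.2 + q.1.2))
    · intro q _
      simp
    · rintro ⟨⟨a, b⟩, ⟨w, s⟩⟩ h1 ⟨⟨a', b'⟩, ⟨w', s'⟩⟩ h2 h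
      have h1 : BadLab v τ e w s := by simpa using h1
      have h2 : BadLab v τ e w' s' := by simpa using h2
      obtain ⟨d, hw, hB, hs⟩ := key w s h1
      obtain ⟨d', hw', hB', hs'⟩ := key w' s' h2
      simp only [Prod.mk.injEq] at h
      obtain ⟨h3, h4⟩ := h
      -- the difference is a relation
      have hrel : Rel v e (fun i => d i - d' i + if i = i₁ then a - a' else 0) := by
        unfold Rel
        have e1 : ∑ i ∈ e, (d i - d' i + if i = i₁ then a - a' else 0) • v i =
            ∑ i ∈ e, d i • v i - ∑ i ∈ e, d' i • v i + (a - a') • v i₁ := by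
          have e2 : ∑ i ∈ e, (if i = i₁ then a - a' else 0) • v i = (a - a') • v i₁ := by
            rw [Finset.sum_eq_single i₁]
            · simp
            · intro i _ hi; simp [hi]
            · intro h; exact absurd hi₁ h
          simp only [add_smul, sub_smul, Finset.sum_add_distrib, Finset.sum_sub_distrib] at e2 ⊢
          rw [e2]
        rw [e1, ← hw, ← hw', sub_smul]
        rw [show w - w' + (a • v i₁ - a' • v i₁) = (w + a • v i₁) - (w' + a' • v i₁) by abel, h3,
          sub_self]
      obtain ⟨μ, hμ⟩ := hgp.unique hc₀ hne hrel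
      have haa : a = a' := by
        have e1 : ∑ i ∈ e, τ i * c₀ i * (d i - d' i + if i = i₁ then a - a' else 0) =
            μ * ∑ i ∈ e, τ i * c₀ i ^ 2 := by
          rw [Finset.mul_sum]
          apply Finset.sum_congr rfl
          intro i hi
          rw [hμ i hi]; ring
        have e2 : ∑ i ∈ e, τ i * c₀ i * (d i - d' i + if i = i₁ then a - a' else 0) =
            ∑ i ∈ e, τ i * c₀ i * d i - ∑ i ∈ e, τ i * c₀ i * d' i +
              τ i₁ * c₀ i₁ * (a - a') := by
          have e3 : ∑ i ∈ e, τ i * c₀ i * (if i = i₁ then a - a' else 0) =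
              τ i₁ * c₀ i₁ * (a - a') := by
            rw [Finset.sum_eq_single i₁]
            · simp
            · intro i _ hi; simp [hi]
            · intro h; exact absurd hi₁ h
          rw [← e3, ← Finset.sum_sub_distrib, ← Finset.sum_add_distrib]
          apply Finset.sum_congr rfl
          intro i _
          ring
        rw [e2, hB, hB', hq] at e1
        have e4 : τ i₁ * c₀ i₁ * (a - a') = 0 := by linear_combination e1
        rcases mul_eq_zero.1 e4 with h5 | h5
        · exact absurd h5 (mul_ne_zero hτ (hne' i₁ hi₁))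
        · exact sub_eq_zero.1 h5
      have hww : w = w' := by
        rw [haa] at h3
        exact add_right_cancel h3
      have hμ' : ∀ i ∈ e, d i = d' i + μ * c₀ i := by
        intro i hi
        have := hμ i hi
        simp only [haa, sub_self, ite_self, add_zero] at this
        linear_combination this
      have hss : s = s' := by
        have e1 : ∑ i ∈ e, τ i * d i ^ 2 = ∑ i ∈ e, τ i * d' i ^ 2 +
            2 * μ * ∑ i ∈ e, τ i * c₀ i * d' i + μ ^ 2 * ∑ i ∈ e, τ i * c₀ i ^ 2 := by
          rw [Finset.mul_sum, Finset.mul_sum, ← Finset.sum_add_distrib, ← Finset.sum_add_distrib]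
          apply Finset.sum_congr rfl
          intro i hi
          rw [hμ' i hi]; ring
        rw [hB', hq] at e1
        linear_combination hs - hs' - e1
      have hbb : b = b' := by
        rw [hss] at h4
        exact add_left_cancel h4
      rw [haa, hbb, hww, hss]
  rw [Finset.card_product, Finset.card_product, Finset.card_univ, Finset.card_univ] at hinj
  exact hinj

lemma rel_update (v : ι → V) (e : Finset ι) (x : ι) (hx : x ∉ e) (w : V) (c : ι → F) :
    Rel (Function.update v x w) e c ↔ Rel v e c := by
  unfold Rel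
  have : ∑ i ∈ e, c i • Function.update v x w i = ∑ i ∈ e, c i • v i := by
    apply Finset.sum_congr rfl
    intro i hi
    rw [Function.update_of_ne (ne_of_mem_of_not_mem hi hx)]
  rw [this]

lemma sum_update (τ : ι → F) (e : Finset ι) (x : ι) (hx : x ∉ e) (s : F) (g : ι → F) :
    ∑ i ∈ e, Function.update τ x s i * g i = ∑ i ∈ e, τ i * g i := by
  apply Finset.sum_congr rfl
  intro i hi
  rw [Function.update_of_ne (ne_of_mem_of_not_mem hi hx)]

lemma E0_update (v : ι → V) (τ : ι → F) (e : Finset ι) (x : ι) (hx : x ∉ e) (w : V) (s : F) :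
    E0 (Function.update v x w) (Function.update τ x s) e ↔ E0 v τ e := by
  unfold E0 GP Iso
  simp only [rel_update v e x hx w, sum_update τ e x hx s]
  have : (∃ i ∈ e, Function.update τ x s i ≠ 0) ↔ ∃ i ∈ e, τ i ≠ 0 := by
    constructor
    · rintro ⟨i, hi, h⟩
      rw [Function.update_of_ne (ne_of_mem_of_not_mem hi hx)] at h
      exact ⟨i, hi, h⟩
    · rintro ⟨i, hi, h⟩
      refine ⟨i, hi, ?_⟩
      rw [Function.update_of_ne (ne_of_mem_of_not_mem hi hx)]
      exact h
  rw [this]

lemma BadLab_update (v : ι → V) (τ : ι → F) (e : Finset ι) (x : ι) (hx : x ∉ e) (w : V) (s : F)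
    (w' : V) (s' : F) :
    BadLab (Function.update v x w) (Function.update τ x s) e w' s' ↔ BadLab v τ e w' s' := by
  unfold BadLab
  have h1 : ∀ d : ι → F, ∑ i ∈ e, d i • Function.update v x w i = ∑ i ∈ e, d i • v i := by
    intro d
    apply Finset.sum_congr rfl
    intro i hi
    rw [Function.update_of_ne (ne_of_mem_of_not_mem hi hx)]
  simp only [rel_update v e x hx w, sum_update τ e x hx s, mul_assoc, h1]

open Classical in
lemma count_bad (e : Finset ι) (x : ι) (hx : x ∉ e) :
    Fintype.card F * Fintype.card F * (univ.filter (fun ω : (ι → V) × (ι → F) =>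
      E0 ω.1 ω.2 e ∧ BadLab ω.1 ω.2 e (ω.1 x) (ω.2 x))).card ≤
      (univ.filter (fun ω : (ι → V) × (ι → F) => E0 ω.1 ω.2 e)).card := by
  set E := univ.filter (fun ω : (ι → V) × (ι → F) => E0 ω.1 ω.2 e) with hE
  set B := univ.filter (fun ω : (ι → V) × (ι → F) =>
      E0 ω.1 ω.2 e ∧ BadLab ω.1 ω.2 e (ω.1 x) (ω.2 x)) with hB
  have h1 : ((univ : Finset (V × F)) ×ˢ B).card ≤
      ((E ×ˢ (univ : Finset (V × F))).filter
        (fun q => BadLab q.1.1 q.1.2 e q.2.1 q.2.2)).card := by
    apply Finset.card_le_card_of_injOn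
      (fun q => ((Function.update q.2.1 x q.1.1, Function.update q.2.2 x q.1.2),
        (q.2.1 x, q.2.2 x)))
    · rintro ⟨⟨w, s⟩, ⟨v, τ⟩⟩ hq
      have hq : E0 v τ e ∧ BadLab v τ e (v x) (τ x) := by simpa [hB] using hq
      simp only [coe_filter, mem_product, mem_univ, and_true, hE, mem_filter, true_and,
        Set.mem_ofPred_eq]
      exact ⟨(E0_update v τ e x hx w s).2 hq.1, (BadLab_update v τ e x hx w s _ _).2 hq.2⟩
    · rintro ⟨⟨w, s⟩, ⟨v, τ⟩⟩ _ ⟨⟨w', s'⟩, ⟨v', τ'⟩⟩ _ h
      simp only [Prod.mk.injEq] at h
      obtain ⟨⟨h1, h2⟩, h3, h4⟩ := h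
      have e1 : w = w' := by
        have := congrFun h1 x
        rwa [Function.update_self, Function.update_self] at this
      have e2 : s = s' := by
        have := congrFun h2 x
        rwa [Function.update_self, Function.update_self] at this
      have e3 : v = v' := by
        funext i
        by_cases hi : i = x
        · rw [hi]; exact h3
        · have := congrFun h1 i
          rwa [Function.update_of_ne hi, Function.update_of_ne hi] at this
      have e4 : τ = τ' := by
        funext i
        by_cases hi : i = x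
        · rw [hi]; exact h4
        · have := congrFun h2 i
          rwa [Function.update_of_ne hi, Function.update_of_ne hi] at this
      rw [e1, e2, e3, e4]
  have h2 : ((E ×ˢ (univ : Finset (V × F))).filter
        (fun q => BadLab q.1.1 q.1.2 e q.2.1 q.2.2)).card =
      ∑ ω ∈ E, (univ.filter (fun q : V × F => BadLab ω.1 ω.2 e q.1 q.2)).card := by
    simp only [Finset.card_filter]
    rw [Finset.sum_product]
  have h3 : Fintype.card F * Fintype.card F * (Fintype.card (V × F) * B.card) ≤
      Fintype.card (V × F) * E.card := by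
    have h4 : Fintype.card (V × F) * B.card = ((univ : Finset (V × F)) ×ˢ B).card := by
      rw [Finset.card_product, Finset.card_univ]
    rw [h4]
    refine (Nat.mul_le_mul_left _ (h1.trans_eq h2)).trans ?_
    rw [Finset.mul_sum, mul_comm (Fintype.card (V × F)), ← smul_eq_mul (a := E.card),
      ← Finset.sum_const]
    apply Finset.sum_le_sum
    intro ω hω
    exact count_badlab ω.1 ω.2 e (by simpa [hE] using hω)
  have h5 : Fintype.card (V × F) * (Fintype.card F * Fintype.card F * B.card) ≤
      Fintype.card (V × F) * E.card := by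
    calc Fintype.card (V × F) * (Fintype.card F * Fintype.card F * B.card)
        = Fintype.card F * Fintype.card F * (Fintype.card (V × F) * B.card) := by ring
      _ ≤ _ := h3
  exact Nat.le_of_mul_le_mul_left h5 Fintype.card_pos

open Classical in
/-- every `r`-set of labels is an edge for a positive proportion of all labellings -/
lemma count_E1 (e : Finset ι) (he2 : 2 ≤ e.card) (he : 2 * e.card ≤ Fintype.card F - 1)
    (hcard : Fintype.card F ^ (e.card - 1) = Fintype.card V)
    (hN : 2 * Fintype.card ι ≤ Fintype.card F * Fintype.card F) :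
    Fintype.card ((ι → V) × (ι → F)) ≤ 8 * Fintype.card F *
      (univ.filter (fun ω : (ι → V) × (ι → F) => E1 ω.1 ω.2 e)).card := by
  set E := univ.filter (fun ω : (ι → V) × (ι → F) => E0 ω.1 ω.2 e) with hE
  set G := univ.filter (fun ω : (ι → V) × (ι → F) => E1 ω.1 ω.2 e) with hG
  let B : ι → Finset ((ι → V) × (ι → F)) := fun x => univ.filter (fun ω =>
      E0 ω.1 ω.2 e ∧ BadLab ω.1 ω.2 e (ω.1 x) (ω.2 x))
  have h1 : E ⊆ G ∪ (eᶜ).biUnion B := by
    intro ω hω
    have hω : E0 ω.1 ω.2 e := by simpa [hE] using hω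
    by_cases hb : ∃ x, x ∉ e ∧ BadLab ω.1 ω.2 e (ω.1 x) (ω.2 x)
    · obtain ⟨x, hx, hxb⟩ := hb
      apply Finset.mem_union_right
      rw [Finset.mem_biUnion]
      refine ⟨x, by simpa using hx, ?_⟩
      simp only [B, mem_filter, mem_univ, true_and]
      exact ⟨hω, hxb⟩
    · apply Finset.mem_union_left
      simp only [hG, mem_filter, mem_univ, true_and]
      push Not at hb
      exact ⟨hω, hb⟩
  have h2 : E.card ≤ G.card + ∑ x ∈ eᶜ, (B x).card :=
    (Finset.card_le_card h1).trans ((Finset.card_union_le _ _).trans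
      (Nat.add_le_add_left Finset.card_biUnion_le _))
  have h3 : Fintype.card F * Fintype.card F * ∑ x ∈ eᶜ, (B x).card ≤
      Fintype.card ι * E.card := by
    rw [Finset.mul_sum]
    refine (Finset.sum_le_sum (fun x hx => count_bad e x (by simpa using hx))).trans ?_
    rw [Finset.sum_const, smul_eq_mul]
    exact Nat.mul_le_mul_right _ (Finset.card_le_univ _)
  have hιpos : 0 < Fintype.card ι := by
    have := Finset.card_le_univ e
    omega
  have h4 : Fintype.card ι * (2 * ∑ x ∈ eᶜ, (B x).card) ≤ Fintype.card ι * E.card := by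
    calc Fintype.card ι * (2 * ∑ x ∈ eᶜ, (B x).card)
        = (2 * Fintype.card ι) * ∑ x ∈ eᶜ, (B x).card := by ring
      _ ≤ (Fintype.card F * Fintype.card F) * ∑ x ∈ eᶜ, (B x).card := Nat.mul_le_mul_right _ hN
      _ ≤ _ := h3
  have h5 := Nat.le_of_mul_le_mul_left h4 hιpos
  have h6 : E.card ≤ 2 * G.card := by omega
  have h7 := count_E0 (F := F) (V := V) e he2 he hcard
  rw [Fintype.card_prod]
  calc Fintype.card (ι → V) * Fintype.card (ι → F) ≤ 4 * Fintype.card F * E.card := h7
    _ ≤ 4 * Fintype.card F * (2 * G.card) := Nat.mul_le_mul_left _ h6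
    _ = 8 * Fintype.card F * G.card := by ring

end counting

/-! ### hypergraphs -/

/-- edge set of `S^r K_3^2` on the vertex set `Fin 3 ⊕ Fin (r - 2)`:
all sets consisting of two of the first three vertices and of all the other `r - 2` vertices -/
def threeEdges (r : ℕ) : Finset (Finset (Fin 3 ⊕ Fin (r - 2))) :=
  (powersetCard 2 (univ : Finset (Fin 3))).image
    (fun P => P.disjSum (univ : Finset (Fin (r - 2))))

/-- the family `H` contains a copy of the family `F` -/
def Contains {V W : Type*} (H : Finset (Finset V)) (F : Finset (Finset W)) : Prop :=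
  ∃ f : W ↪ V, ∀ e ∈ F, e.map f ∈ H

open Classical in
/-- largest number of edges of an `F`-free `r`-graph on `n` vertices -/
noncomputable def exNum {W : Type*} (r n : ℕ) (F : Finset (Finset W)) : ℕ :=
  (univ.filter (fun H : Finset (Finset (Fin n)) =>
    (∀ e ∈ H, e.card = r) ∧ ¬ Contains H F)).sup card

/-- sanity check: there are exactly three edges, all of size `r` -/
lemma threeEdges_card (r : ℕ) (hr : 2 ≤ r) :
    (threeEdges r).card = 3 ∧ ∀ e ∈ threeEdges r, e.card = r := by
  constructor
  · unfold threeEdges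
    rw [Finset.card_image_of_injective, Finset.card_powersetCard, Finset.card_univ,
      Fintype.card_fin]
    · rfl
    · intro P Q h
      ext x
      have : (Sum.inl x : Fin 3 ⊕ Fin (r - 2)) ∈ P.disjSum (univ : Finset (Fin (r - 2))) ↔
          (Sum.inl x : Fin 3 ⊕ Fin (r - 2)) ∈ Q.disjSum (univ : Finset (Fin (r - 2))) := by
        simp only at h
        rw [h]
      simpa using this
  · intro e he
    unfold threeEdges at he
    obtain ⟨P, hP, rfl⟩ := Finset.mem_image.1 he
    rw [Finset.card_disjSum, (mem_powersetCard.1 hP).2, Finset.card_univ, Fintype.card_fin]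
    omega

lemma le_exNum {W : Type*} {r n : ℕ} {F : Finset (Finset W)} (H : Finset (Finset (Fin n)))
    (h1 : ∀ e ∈ H, e.card = r) (h2 : ¬ Contains H F) : H.card ≤ exNum r n F := by
  classical
  unfold exNum
  exact Finset.le_sup (f := card) (by simpa using ⟨h1, h2⟩)

lemma exNum_le {W : Type*} {r n : ℕ} {F : Finset (Finset W)} (M : ℕ)
    (h : ∀ H : Finset (Finset (Fin n)), (∀ e ∈ H, e.card = r) → ¬ Contains H F → H.card ≤ M) :
    exNum r n F ≤ M := by
  classical
  unfold exNum
  apply Finset.sup_le
  intro H hH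
  simp only [mem_filter, mem_univ, true_and] at hH
  exact h H hH.1 hH.2

/-- averaging over vertex deletions -/
lemma exNum_succ {W : Type*} (r n : ℕ) (F : Finset (Finset W)) (hr : r ≤ n) :
    (n + 1 - r) * exNum r (n + 1) F ≤ (n + 1) * exNum r n F := by
  classical
  have hpos : 0 < n + 1 - r := by omega
  rw [mul_comm, ← Nat.le_div_iff_mul_le hpos]
  apply exNum_le
  intro H hH1 hH2
  rw [Nat.le_div_iff_mul_le hpos]
  have h1 : ∀ v : Fin (n + 1), (H.filter (fun e => v ∉ e)).card ≤ exNum r n F := by
    intro v
    let Hv : Finset (Finset (Fin n)) := univ.filter (fun e => e.map v.succAboveEmb ∈ H)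
    have hle : Hv.card ≤ exNum r n F := by
      apply le_exNum
      · intro e he
        simp only [Hv, mem_filter, mem_univ, true_and] at he
        rw [← hH1 _ he, Finset.card_map]
      · rintro ⟨f, hf⟩
        apply hH2
        refine ⟨f.trans v.succAboveEmb, fun e he => ?_⟩
        have := hf e he
        simp only [Hv, mem_filter, mem_univ, true_and] at this
        rw [← Finset.map_map]
        exact this
    refine le_trans ?_ hle
    have hsub : H.filter (fun e => v ∉ e) ⊆ Hv.image (fun e => e.map v.succAboveEmb) := by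
      intro e he
      rw [mem_filter] at he
      rw [mem_image]
      have hmap : (univ.filter (fun i : Fin n => v.succAbove i ∈ e)).map v.succAboveEmb = e := by
        ext a
        simp only [Finset.mem_map, mem_filter, mem_univ, true_and, Fin.coe_succAboveEmb]
        constructor
        · rintro ⟨i, hi, rfl⟩; exact hi
        · intro ha
          have hne : a ≠ v := fun h => he.2 (h ▸ ha)
          obtain ⟨i, hi⟩ := Fin.exists_succAbove_eq hne
          exact ⟨i, by rw [hi]; exact ha, hi⟩
      refine ⟨univ.filter (fun i : Fin n => v.succAbove i ∈ e), ?_, hmap⟩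
      simp only [Hv, mem_filter, mem_univ, true_and]
      rw [hmap]
      exact he.1
    exact (Finset.card_le_card hsub).trans Finset.card_image_le
  have h2 : ∑ v : Fin (n + 1), (H.filter (fun e => v ∉ e)).card = ∑ e ∈ H, (n + 1 - r) := by
    simp only [Finset.card_filter]
    rw [Finset.sum_comm]
    apply Finset.sum_congr rfl
    intro e he
    rw [← Finset.card_filter]
    have : (univ.filter (fun v : Fin (n + 1) => v ∉ e)) = eᶜ := by
      ext a; simp
    rw [this, Finset.card_compl, Fintype.card_fin, hH1 e he]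
  rw [Finset.sum_const, smul_eq_mul] at h2
  rw [← h2]
  refine (Finset.sum_le_sum (fun v _ => h1 v)).trans ?_
  rw [Finset.sum_const, Finset.card_univ, Fintype.card_fin, smul_eq_mul]

lemma ratio_antitone {W : Type*} (r : ℕ) (F : Finset (Finset W)) (n : ℕ) (hr : r ≤ n) :
    (exNum r (n + 1) F : ℝ) / ((n + 1).choose r : ℝ) ≤ (exNum r n F : ℝ) / (n.choose r : ℝ) := by
  have h1 := exNum_succ r n F hr
  have h2 : (n + 1).choose r * (n + 1 - r) = n.choose r * (n + 1) := by
    have := Nat.choose_mul_succ_eq n r
    rw [this]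
  have p1 : (0 : ℝ) < ((n + 1).choose r : ℝ) := by
    exact_mod_cast Nat.choose_pos (by omega)
  have p2 : (0 : ℝ) < (n.choose r : ℝ) := by
    exact_mod_cast Nat.choose_pos hr
  have p3 : (0 : ℝ) < ((n + 1 - r : ℕ) : ℝ) := by
    exact_mod_cast (show 0 < n + 1 - r by omega)
  rw [div_le_div_iff₀ p1 p2]
  have h1' : ((n + 1 - r : ℕ) : ℝ) * (exNum r (n + 1) F : ℝ) ≤ ((n + 1 : ℕ) : ℝ) * exNum r n F := by
    exact_mod_cast h1
  have h2' : ((n + 1).choose r : ℝ) * ((n + 1 - r : ℕ) : ℝ) = (n.choose r : ℝ) * ((n + 1 : ℕ) : ℝ) := by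
    exact_mod_cast h2
  have h3 : ((n + 1 - r : ℕ) : ℝ) * ((exNum r (n + 1) F : ℝ) * (n.choose r : ℝ)) ≤
      ((n + 1 - r : ℕ) : ℝ) * ((exNum r n F : ℝ) * ((n + 1).choose r : ℝ)) := by
    calc ((n + 1 - r : ℕ) : ℝ) * ((exNum r (n + 1) F : ℝ) * (n.choose r : ℝ))
        = (((n + 1 - r : ℕ) : ℝ) * (exNum r (n + 1) F : ℝ)) * (n.choose r : ℝ) := by ring
      _ ≤ (((n + 1 : ℕ) : ℝ) * exNum r n F) * (n.choose r : ℝ) :=
          mul_le_mul_of_nonneg_right h1' p2.le
      _ = (exNum r n F : ℝ) * ((n.choose r : ℝ) * ((n + 1 : ℕ) : ℝ)) := by ring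
      _ = (exNum r n F : ℝ) * (((n + 1).choose r : ℝ) * ((n + 1 - r : ℕ) : ℝ)) := by rw [h2']
      _ = _ := by ring
  exact le_of_mul_le_mul_left h3 p3

/-- the limit exists and is at least every lower bound of the sequence -/
lemma limit_exists {W : Type*} (r : ℕ) (F : Finset (Finset W)) (β : ℝ)
    (hβ : ∀ n, r ≤ n → β ≤ (exNum r n F : ℝ) / (n.choose r : ℝ)) :
    ∃ π : ℝ, Tendsto (fun n : ℕ => (exNum r n F : ℝ) / (n.choose r : ℝ)) atTop (𝓝 π) ∧ β ≤ π := by
  have hanti : Antitone (fun n : ℕ => (exNum r (n + r) F : ℝ) / ((n + r).choose r : ℝ)) := by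
    apply antitone_nat_of_succ_le
    intro n
    have := ratio_antitone r F (n + r) (by omega)
    rw [show n + 1 + r = n + r + 1 by ring]
    exact this
  have hbdd : BddBelow (Set.range (fun n : ℕ => (exNum r (n + r) F : ℝ) / ((n + r).choose r : ℝ))) := by
    refine ⟨0, ?_⟩
    rintro _ ⟨n, rfl⟩
    positivity
  have hlim := tendsto_atTop_ciInf hanti hbdd
  refine ⟨⨅ n : ℕ, (exNum r (n + r) F : ℝ) / ((n + r).choose r : ℝ), ?_, ?_⟩
  · exact (tendsto_add_atTop_iff_nat r).1 hlim
  · exact le_ciInf (fun n => hβ _ (by omega))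


/-! ### random labellings -/

lemma card_collide (n N : ℕ) (u v : Fin n) (huv : u ≠ v) :
    N * (univ.filter (fun φ : Fin n → Fin N => φ u = φ v)).card ≤ N ^ n := by
  have h : ((univ : Finset (Fin N)) ×ˢ
      (univ.filter (fun φ : Fin n → Fin N => φ u = φ v))).card ≤
      (univ : Finset (Fin n → Fin N)).card := by
    apply Finset.card_le_card_of_injOn (fun q => Function.update q.2 u q.1)
    · intro q _
      simp
    · rintro ⟨c, φ⟩ h1 ⟨c', φ'⟩ h2 h
      simp only [coe_product, coe_univ, Set.mem_prod, Set.mem_univ, true_and, coe_filter,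
        mem_univ, Set.mem_ofPred_eq] at h1 h2
      simp only at h
      have hc : c = c' := by
        have := congrFun h u
        simpa using this
      have hφ : ∀ w, w ≠ u → φ w = φ' w := by
        intro w hw
        have := congrFun h w
        simpa [Function.update_of_ne hw] using this
      have hu : φ u = φ' u := by rw [h1, hφ v huv.symm, ← h2]
      have hφφ : φ = φ' := by
        funext w
        by_cases hw : w = u
        · rw [hw, hu]
        · exact hφ w hw
      rw [hc, hφφ]
  simpa using h

lemma bad_count (n N r : ℕ) (hN : 0 < N) (hrN : r * (r - 1) ≤ N) (e : Finset (Fin n))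
    (he : e.card = r) :
    2 * (univ.filter (fun φ : Fin n → Fin N => ¬ Set.InjOn φ (e : Set (Fin n)))).card ≤ N ^ n := by
  classical
  have h1 : (univ.filter (fun φ : Fin n → Fin N => ¬ Set.InjOn φ (e : Set (Fin n)))) ⊆
      (powersetCard 2 e).biUnion (fun P =>
        univ.filter (fun φ : Fin n → Fin N => ∀ x ∈ P, ∀ y ∈ P, φ x = φ y)) := by
    intro φ hφ
    simp only [mem_filter, mem_univ, true_and, Set.InjOn, mem_coe] at hφ
    push Not at hφ
    obtain ⟨x, hx, y, hy, hxy, hne⟩ := hφ
    simp only [mem_biUnion, mem_powersetCard, mem_filter, mem_univ, true_and]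
    refine ⟨{x, y}, ⟨?_, Finset.card_pair hne⟩, ?_⟩
    · intro z hz
      simp only [mem_insert, mem_singleton] at hz
      rcases hz with rfl | rfl <;> assumption
    · intro a ha b hb
      simp only [mem_insert, mem_singleton] at ha hb
      rcases ha with rfl | rfl <;> rcases hb with rfl | rfl <;> simp [hxy]
  have h2 : (univ.filter (fun φ : Fin n → Fin N => ¬ Set.InjOn φ (e : Set (Fin n)))).card ≤
      ∑ P ∈ powersetCard 2 e,
        (univ.filter (fun φ : Fin n → Fin N => ∀ x ∈ P, ∀ y ∈ P, φ x = φ y)).card :=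
    (Finset.card_le_card h1).trans Finset.card_biUnion_le
  have h3 : ∀ P ∈ powersetCard 2 e,
      N * (univ.filter (fun φ : Fin n → Fin N => ∀ x ∈ P, ∀ y ∈ P, φ x = φ y)).card ≤ N ^ n := by
    intro P hP
    rw [mem_powersetCard] at hP
    obtain ⟨u, v, huv, rfl⟩ := Finset.card_eq_two.1 hP.2
    refine le_trans (Nat.mul_le_mul_left _ (Finset.card_le_card ?_)) (card_collide n N u v huv)
    intro φ hφ
    simp only [mem_filter, mem_univ, true_and] at hφ ⊢
    exact hφ u (by simp) v (by simp)
  have h4 : N * (univ.filter (fun φ : Fin n → Fin N => ¬ Set.InjOn φ (e : Set (Fin n)))).card ≤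
      r.choose 2 * N ^ n := by
    refine (Nat.mul_le_mul_left N h2).trans ?_
    rw [Finset.mul_sum]
    refine (Finset.sum_le_sum h3).trans ?_
    rw [Finset.sum_const, Finset.card_powersetCard, he, smul_eq_mul]
  have h5 : r.choose 2 * 2 = r * (r - 1) := by
    rw [Nat.choose_two_right]
    exact Nat.div_mul_cancel (Nat.even_mul_pred_self r).two_dvd
  have h6 : N * (2 * (univ.filter
      (fun φ : Fin n → Fin N => ¬ Set.InjOn φ (e : Set (Fin n)))).card) ≤ N * N ^ n := by
    calc N * (2 * (univ.filter
          (fun φ : Fin n → Fin N => ¬ Set.InjOn φ (e : Set (Fin n)))).card)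
        = 2 * (N * (univ.filter
          (fun φ : Fin n → Fin N => ¬ Set.InjOn φ (e : Set (Fin n)))).card) := by ring
      _ ≤ 2 * (r.choose 2 * N ^ n) := Nat.mul_le_mul_left _ h4
      _ = (r.choose 2 * 2) * N ^ n := by ring
      _ = r * (r - 1) * N ^ n := by rw [h5]
      _ ≤ N * N ^ n := Nat.mul_le_mul_right _ hrN
  exact Nat.le_of_mul_le_mul_left h6 hN

lemma good_count (n N r : ℕ) (hN : 0 < N) (hrN : r * (r - 1) ≤ N) (e : Finset (Fin n))
    (he : e.card = r) :
    N ^ n ≤ 2 * (univ.filter (fun φ : Fin n → Fin N => Set.InjOn φ (e : Set (Fin n)))).card := by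
  classical
  have h1 := bad_count n N r hN hrN e he
  have h2 := Finset.card_filter_add_card_filter_not (s := (univ : Finset (Fin n → Fin N)))
    (fun φ => Set.InjOn φ (e : Set (Fin n)))
  rw [Finset.card_univ, Fintype.card_fun, Fintype.card_fin, Fintype.card_fin] at h2
  omega

lemma exists_labelling (n N r : ℕ) (hN : 0 < N) (hrN : r * (r - 1) ≤ N) :
    ∃ φ : Fin n → Fin N, n.choose r ≤
      2 * ((powersetCard r (univ : Finset (Fin n))).filter
        (fun e : Finset (Fin n) => Set.InjOn φ (e : Set (Fin n)))).card := by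
  classical
  have : Nonempty (Fin N) := ⟨⟨0, hN⟩⟩
  have hne : (univ : Finset (Fin n → Fin N)).Nonempty := Finset.univ_nonempty
  have hsum : ∑ φ : Fin n → Fin N, n.choose r ≤ ∑ φ : Fin n → Fin N,
      2 * ((powersetCard r (univ : Finset (Fin n))).filter
        (fun e : Finset (Fin n) => Set.InjOn φ (e : Set (Fin n)))).card := by
    rw [← Finset.mul_sum]
    simp only [Finset.card_filter]
    rw [Finset.sum_comm, Finset.mul_sum, Finset.sum_const, Finset.card_univ, Fintype.card_fun,
      Fintype.card_fin, Fintype.card_fin, smul_eq_mul]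
    have : ∀ e ∈ powersetCard r (univ : Finset (Fin n)), N ^ n ≤
        2 * ∑ φ : Fin n → Fin N, (if Set.InjOn φ (e : Set (Fin n)) then 1 else 0) := by
      intro e he
      rw [← Finset.card_filter]
      exact good_count n N r hN hrN e (mem_powersetCard.1 he).2
    refine le_trans ?_ (Finset.sum_le_sum this)
    rw [Finset.sum_const, Finset.card_powersetCard, Finset.card_univ, Fintype.card_fin,
      smul_eq_mul, mul_comm]
  obtain ⟨φ, _, hφ⟩ := Finset.exists_le_of_sum_le hne hsum
  exact ⟨φ, hφ⟩


lemma image_erase_of_injOn {α β : Type*} [DecidableEq α] [DecidableEq β] (S : Finset α)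
    (ψ : α → β) (h : Set.InjOn ψ (S : Set α)) (u : α) (hu : u ∈ S) :
    (S.erase u).image ψ = (S.image ψ).erase (ψ u) := by
  ext a
  simp only [mem_image, mem_erase]
  constructor
  · rintro ⟨x, ⟨hx1, hx2⟩, rfl⟩
    exact ⟨fun hc => hx1 (h hx2 hu hc), x, hx2, rfl⟩
  · rintro ⟨h1, x, hx, rfl⟩
    exact ⟨x, ⟨fun hc => h1 (by rw [hc]), hx⟩, rfl⟩

/-- a copy of `S^r K_3^2` is a set of `r + 1` vertices with three edges -/
lemma contains_iff (r n : ℕ) (hr : 2 ≤ r) (H : Finset (Finset (Fin n))) :
    Contains H (threeEdges r) ↔ ∃ S : Finset (Fin n), S.card = r + 1 ∧ ∃ x y z : Fin n,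
      x ∈ S ∧ y ∈ S ∧ z ∈ S ∧ x ≠ y ∧ y ≠ z ∧ x ≠ z ∧
      S.erase x ∈ H ∧ S.erase y ∈ H ∧ S.erase z ∈ H := by
  classical
  have hP : ∀ P : Finset (Fin 3), P.card = 2 → ∃ j, P = (univ : Finset (Fin 3)).erase j := by
    decide
  constructor
  · rintro ⟨f, hf⟩
    set S : Finset (Fin n) := (univ : Finset (Fin 3 ⊕ Fin (r - 2))).map f with hS
    have hScard : S.card = r + 1 := by
      rw [hS, Finset.card_map, Finset.card_univ, Fintype.card_sum, Fintype.card_fin,
        Fintype.card_fin]
      omega
    have hedge : ∀ j : Fin 3, S.erase (f (Sum.inl j)) ∈ H := by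
      intro j
      have h1 : ((univ : Finset (Fin 3)).erase j).disjSum (univ : Finset (Fin (r - 2))) ∈
          threeEdges r := by
        unfold threeEdges
        apply Finset.mem_image_of_mem
          (fun P : Finset (Fin 3) => P.disjSum (univ : Finset (Fin (r - 2))))
        rw [mem_powersetCard]
        refine ⟨Finset.subset_univ _, ?_⟩
        rw [Finset.card_erase_of_mem (mem_univ _), Finset.card_univ, Fintype.card_fin]
      have h2 := hf _ h1
      have h3 : (((univ : Finset (Fin 3)).erase j).disjSum
          (univ : Finset (Fin (r - 2)))).map f = S.erase (f (Sum.inl j)) := by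
        rw [hS, ← Finset.map_erase]
        congr 1
        ext x
        rcases x with x | x
        · simp
        · simp
      rw [h3] at h2
      exact h2
    have hmem : ∀ j : Fin 3, f (Sum.inl j) ∈ S := by
      intro j; rw [hS]; simp
    have hdist : ∀ i j : Fin 3, i ≠ j → f (Sum.inl i) ≠ f (Sum.inl j) := by
      intro i j hij h
      exact hij (Sum.inl_injective (f.injective h))
    exact ⟨S, hScard, f (Sum.inl 0), f (Sum.inl 1), f (Sum.inl 2), hmem 0, hmem 1, hmem 2,
      hdist 0 1 (by decide), hdist 1 2 (by decide), hdist 0 2 (by decide), hedge 0, hedge 1,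
      hedge 2⟩
  · rintro ⟨S, hS, x, y, z, hx, hy, hz, hxy, hyz, hxz, h1, h2, h3⟩
    have hx' : x ∈ S := hx
    set R := ((S.erase x).erase y).erase z with hR
    have hRcard : R.card = r - 2 := by
      rw [hR, Finset.card_erase_of_mem, Finset.card_erase_of_mem, Finset.card_erase_of_mem hx, hS]
      · omega
      · exact Finset.mem_erase.2 ⟨hxy.symm, hy⟩
      · exact Finset.mem_erase.2 ⟨hyz.symm, Finset.mem_erase.2 ⟨hxz.symm, hz⟩⟩
    let g : Fin 3 → Fin n := ![x, y, z]
    have hg : Function.Injective g := by
      intro a b hab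
      fin_cases a <;> fin_cases b <;> simp [g] at hab ⊢ <;>
        first | exact hxy hab | exact hxy hab.symm | exact hyz hab | exact hyz hab.symm |
          exact hxz hab | exact hxz hab.symm
    let o := R.orderEmbOfFin hRcard
    have hoR : ∀ i, o i ∈ R := fun i => Finset.orderEmbOfFin_mem R hRcard i
    have hgR : ∀ a i, g a ≠ o i := by
      intro a i h
      have := hoR i
      rw [← h, hR] at this
      simp only [Finset.mem_erase] at this
      fin_cases a
      · exact this.2.2.1 rfl
      · exact this.2.1 rfl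
      · exact this.1 rfl
    let f : Fin 3 ⊕ Fin (r - 2) ↪ Fin n :=
      ⟨Sum.elim g o, by
        rintro (a | a) (b | b) h
        · simp only [Sum.elim_inl] at h
          rw [hg h]
        · simp only [Sum.elim_inl, Sum.elim_inr] at h
          exact absurd h (hgR a b)
        · simp only [Sum.elim_inl, Sum.elim_inr] at h
          exact absurd h.symm (hgR b a)
        · simp only [Sum.elim_inr] at h
          rw [o.injective h]⟩
    have huniv : (univ : Finset (Fin 3 ⊕ Fin (r - 2))).map f = S := by
      apply Finset.eq_of_subset_of_card_le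
      · intro a ha
        rw [Finset.mem_map] at ha
        obtain ⟨b, _, rfl⟩ := ha
        rcases b with b | b
        · show g b ∈ S
          fin_cases b
          · exact hx
          · exact hy
          · exact hz
        · have := hoR b
          rw [hR] at this
          exact Finset.mem_of_mem_erase (Finset.mem_of_mem_erase (Finset.mem_of_mem_erase this))
      · rw [Finset.card_map, Finset.card_univ, Fintype.card_sum, Fintype.card_fin,
          Fintype.card_fin, hS]
        omega
    refine ⟨f, ?_⟩
    intro e he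
    unfold threeEdges at he
    obtain ⟨P, hPm, rfl⟩ := Finset.mem_image.1 he
    obtain ⟨j, rfl⟩ := hP P (mem_powersetCard.1 hPm).2
    have h4 : (((univ : Finset (Fin 3)).erase j).disjSum
        (univ : Finset (Fin (r - 2)))).map f = S.erase (g j) := by
      rw [← huniv]
      have : g j = f (Sum.inl j) := rfl
      rw [this, ← Finset.map_erase]
      congr 1
      ext x
      rcases x with x | x
      · simp
      · simp
    show (((univ : Finset (Fin 3)).erase j).disjSum
        (univ : Finset (Fin (r - 2)))).map f ∈ H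
    rw [h4]
    fin_cases j
    · exact h1
    · exact h2
    · exact h3

lemma pullback_free {F V : Type*} [Field F] [AddCommGroup V] [Module F V] (h2 : (2 : F) ≠ 0)
    (r n N : ℕ) (hr : 2 ≤ r) (φ : Fin n → Fin N) (v : Fin N → V) (τ : Fin N → F)
    (H : Finset (Finset (Fin n)))
    (hH : ∀ e ∈ H, Set.InjOn φ (e : Set (Fin n)) ∧ E1 v τ (e.image φ)) :
    ¬ Contains H (threeEdges r) := by
  classical
  rw [contains_iff r n hr]
  rintro ⟨S, hS, x, y, z, hx, hy, hz, hxy, hyz, hxz, h1, h3, h4⟩
  have hinj : Set.InjOn φ (S : Set (Fin n)) := by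
    intro a ha b hb hab
    by_contra hne
    have key : ∀ u, S.erase u ∈ H → u ≠ a → u ≠ b → False := by
      intro u hu hua hub
      have hi := (hH _ hu).1
      have ha' : a ∈ ((S.erase u : Finset (Fin n)) : Set (Fin n)) := by
        rw [mem_coe, mem_erase]; exact ⟨hua.symm, ha⟩
      have hb' : b ∈ ((S.erase u : Finset (Fin n)) : Set (Fin n)) := by
        rw [mem_coe, mem_erase]; exact ⟨hub.symm, hb⟩
      exact hne (hi ha' hb' hab)
    by_cases hxa : x = a
    · by_cases hyb : y = b
      · exact key z h4 (fun h => hxz (hxa.trans h.symm)) (fun h => hyz (hyb.trans h.symm))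
      · exact key y h3 (fun h => hxy (hxa.trans h.symm)) hyb
    · by_cases hxb : x = b
      · by_cases hya : y = a
        · exact key z h4 (fun h => hyz (hya.trans h.symm)) (fun h => hxz (hxb.trans h.symm))
        · exact key y h3 hya (fun h => hxy (hxb.trans h.symm))
      · exact key x h1 hxa hxb
  have g1 := (hH _ h1).2
  have g2 := (hH _ h3).2
  have g3 := (hH _ h4).2
  rw [image_erase_of_injOn S φ hinj x hx] at g1
  rw [image_erase_of_injOn S φ hinj y hy] at g2
  rw [image_erase_of_injOn S φ hinj z hz] at g3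
  exact three h2 (mem_image_of_mem φ hx) (mem_image_of_mem φ hy) (mem_image_of_mem φ hz)
    (fun h => hxy (hinj hx hy h)) (fun h => hyz (hinj hy hz h)) (fun h => hxz (hinj hx hz h))
    g1 g2 g3

/-- the lower bound for every `n` -/
lemma lower (r n : ℕ) (hr : 2 ≤ r) :
    n.choose r ≤ 64 * r * exNum r n (threeEdges r) := by
  classical
  obtain ⟨p, hp, hp1, hp2⟩ := Nat.exists_prime_lt_and_le_two_mul (2 * r) (by omega)
  have : Fact p.Prime := ⟨hp⟩
  have hpN : 2 * (2 * (r * r)) ≤ p * p := by nlinarith
  have hN : r * (r - 1) ≤ 2 * (r * r) := by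
    calc r * (r - 1) ≤ r * r := Nat.mul_le_mul_left _ (by omega)
      _ ≤ 2 * (r * r) := by omega
  obtain ⟨φ, hφ⟩ := exists_labelling n (2 * (r * r)) r (by positivity) hN
  set G := (powersetCard r (univ : Finset (Fin n))).filter
    (fun e : Finset (Fin n) => Set.InjOn φ (e : Set (Fin n))) with hG
  let Ω := (Fin (2 * (r * r)) → (Fin (r - 1) → ZMod p)) × (Fin (2 * (r * r)) → ZMod p)
  have h2 : (2 : ZMod p) ≠ 0 := by
    intro h
    have : ((2 : ℕ) : ZMod p) = 0 := by exact_mod_cast h
    rw [ZMod.natCast_eq_zero_iff] at this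
    have := Nat.le_of_dvd (by norm_num) this
    omega
  have hcount : ∀ e ∈ G, Fintype.card Ω ≤ 8 * p *
      (univ.filter (fun ω : Ω => E1 ω.1 ω.2 (e.image φ))).card := by
    intro e he
    rw [hG, mem_filter, mem_powersetCard] at he
    have hecard : (e.image φ).card = r := by
      rw [Finset.card_image_of_injOn he.2, he.1.2]
    have := count_E1 (F := ZMod p) (V := Fin (r - 1) → ZMod p) (e.image φ)
      (by rw [hecard]; exact hr) (by rw [hecard, ZMod.card]; omega)
      (by rw [hecard, Fintype.card_fun, Fintype.card_fin])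
      (by rw [Fintype.card_fin, ZMod.card]; exact hpN)
    rw [ZMod.card] at this
    exact this
  -- average over all labellings
  have hne : (univ : Finset Ω).Nonempty := Finset.univ_nonempty
  have hsum : ∑ _ω : Ω, G.card ≤ ∑ ω : Ω,
      8 * p * (G.filter (fun e : Finset (Fin n) => E1 ω.1 ω.2 (e.image φ))).card := by
    rw [← Finset.mul_sum]
    simp only [Finset.card_filter]
    rw [Finset.sum_comm, Finset.mul_sum, Finset.sum_const, Finset.card_univ, smul_eq_mul,
      mul_comm, ← smul_eq_mul, ← Finset.sum_const]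
    apply Finset.sum_le_sum
    intro e he
    rw [← Finset.card_filter]
    exact hcount e he
  obtain ⟨ω, _, hω⟩ := Finset.exists_le_of_sum_le hne hsum
  have hfree : (G.filter (fun e : Finset (Fin n) => E1 ω.1 ω.2 (e.image φ))).card ≤
      exNum r n (threeEdges r) := by
    apply le_exNum
    · intro e he
      rw [mem_filter, hG, mem_filter, mem_powersetCard] at he
      exact he.1.1.2
    · apply pullback_free h2 r n (2 * (r * r)) hr φ ω.1 ω.2
      intro e he
      rw [mem_filter, hG, mem_filter, mem_powersetCard] at he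
      exact ⟨he.1.2, he.2⟩
  calc n.choose r ≤ 2 * G.card := hφ
    _ ≤ 2 * (8 * p * (G.filter (fun e : Finset (Fin n) => E1 ω.1 ω.2 (e.image φ))).card) :=
        Nat.mul_le_mul_left _ hω
    _ ≤ 2 * (8 * (2 * (2 * r)) * exNum r n (threeEdges r)) := by
        apply Nat.mul_le_mul_left
        apply Nat.mul_le_mul _ hfree
        exact Nat.mul_le_mul_left _ hp2
    _ = _ := by ring

/-- the upper bound by double counting -/
lemma upper (r n : ℕ) (hr : 2 ≤ r) (hn : r + 1 ≤ n) :
    (r + 1) * exNum r n (threeEdges r) ≤ 2 * n.choose r := by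
  classical
  have hpos : 0 < n - r := by omega
  have h1 : ∀ H : Finset (Finset (Fin n)), (∀ e ∈ H, e.card = r) → ¬ Contains H (threeEdges r) →
      (n - r) * H.card ≤ 2 * n.choose (r + 1) := by
    intro H hH1 hH2
    rw [contains_iff r n hr] at hH2
    have h2 : ∀ S ∈ powersetCard (r + 1) (univ : Finset (Fin n)),
        (H.filter (fun e => e ⊆ S)).card ≤ 2 := by
      intro S hS
      by_contra hcon
      push Not at hcon
      obtain ⟨e₁, e₂, e₃, he₁, he₂, he₃, h12, h13, h23⟩ := Finset.two_lt_card_iff.1 hcon
      have hScard := (mem_powersetCard.1 hS).2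
      have key : ∀ e ∈ H.filter (fun e => e ⊆ S), ∃ x ∈ S, S.erase x = e := by
        intro e he
        rw [mem_filter] at he
        have hc : (S \ e).card = 1 := by
          rw [Finset.card_sdiff_of_subset he.2, hScard, hH1 e he.1]; omega
        obtain ⟨x, hx⟩ := Finset.card_eq_one.1 hc
        have hxS : x ∈ S \ e := by rw [hx]; simp
        refine ⟨x, (Finset.mem_sdiff.1 hxS).1, ?_⟩
        ext a
        constructor
        · intro ha
          rw [mem_erase] at ha
          by_contra hae
          have : a ∈ S \ e := Finset.mem_sdiff.2 ⟨ha.2, hae⟩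
          rw [hx, Finset.mem_singleton] at this
          exact ha.1 this
        · intro ha
          rw [mem_erase]
          refine ⟨?_, he.2 ha⟩
          rintro rfl
          exact (Finset.mem_sdiff.1 hxS).2 ha
      obtain ⟨x, hx, rfl⟩ := key e₁ he₁
      obtain ⟨y, hy, rfl⟩ := key e₂ he₂
      obtain ⟨z, hz, rfl⟩ := key e₃ he₃
      apply hH2
      exact ⟨S, hScard, x, y, z, hx, hy, hz, fun h => h12 (by rw [h]), fun h => h23 (by rw [h]),
        fun h => h13 (by rw [h]), (mem_filter.1 he₁).1, (mem_filter.1 he₂).1,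
        (mem_filter.1 he₃).1⟩
    have h3 : ∀ e ∈ H, ((powersetCard (r + 1) (univ : Finset (Fin n))).filter
        (fun S => e ⊆ S)).card = n - r := by
      intro e he
      have h4 : (powersetCard (r + 1) (univ : Finset (Fin n))).filter (fun S => e ⊆ S) =
          (eᶜ).image (fun x => insert x e) := by
        ext S
        rw [mem_filter, mem_powersetCard, mem_image]
        constructor
        · rintro ⟨⟨_, hS⟩, heS⟩
          have hc : (S \ e).card = 1 := by
            rw [Finset.card_sdiff_of_subset heS, hS, hH1 e he]; omega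
          obtain ⟨x, hx⟩ := Finset.card_eq_one.1 hc
          have hxS : x ∈ S \ e := by rw [hx]; simp
          refine ⟨x, by simpa using (Finset.mem_sdiff.1 hxS).2, ?_⟩
          rw [Finset.insert_eq, ← hx, Finset.sdiff_union_of_subset heS]
        · rintro ⟨x, hx, rfl⟩
          have hx' : x ∉ e := by simpa using hx
          refine ⟨⟨Finset.subset_univ _, ?_⟩, Finset.subset_insert _ _⟩
          rw [Finset.card_insert_of_notMem hx', hH1 e he]
      rw [h4, Finset.card_image_of_injOn, Finset.card_compl, Fintype.card_fin, hH1 e he]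
      intro x hx y hy hxy
      have hx' : x ∉ e := by simpa using hx
      have hy' : y ∉ e := by simpa using hy
      have h5 : x ∈ insert y e := by
        simp only at hxy
        rw [← hxy]; exact Finset.mem_insert_self _ _
      rcases Finset.mem_insert.1 h5 with h6 | h6
      · exact h6
      · exact absurd h6 hx'
    calc (n - r) * H.card = ∑ e ∈ H, ((powersetCard (r + 1) (univ : Finset (Fin n))).filter
          (fun S => e ⊆ S)).card := by
          rw [Finset.sum_congr rfl h3, Finset.sum_const, smul_eq_mul, mul_comm]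
      _ = ∑ S ∈ powersetCard (r + 1) (univ : Finset (Fin n)),
          (H.filter (fun e => e ⊆ S)).card := by
          simp only [Finset.card_filter]
          rw [Finset.sum_comm]
      _ ≤ ∑ S ∈ powersetCard (r + 1) (univ : Finset (Fin n)), 2 := Finset.sum_le_sum h2
      _ = 2 * n.choose (r + 1) := by
          rw [Finset.sum_const, Finset.card_powersetCard, Finset.card_univ, Fintype.card_fin,
            smul_eq_mul, mul_comm]
  have h2 : exNum r n (threeEdges r) ≤ (2 * n.choose (r + 1)) / (n - r) := by
    apply exNum_le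
    intro H hH1 hH2
    rw [Nat.le_div_iff_mul_le hpos, mul_comm]
    exact h1 H hH1 hH2
  have h3 : (n - r) * exNum r n (threeEdges r) ≤ 2 * n.choose (r + 1) := by
    rw [mul_comm]
    exact (Nat.le_div_iff_mul_le hpos).1 h2
  have h4 : n.choose (r + 1) * (r + 1) = n.choose r * (n - r) := Nat.choose_succ_right_eq n r
  have h5 : (n - r) * ((r + 1) * exNum r n (threeEdges r)) ≤ (n - r) * (2 * n.choose r) := by
    calc (n - r) * ((r + 1) * exNum r n (threeEdges r))
        = (r + 1) * ((n - r) * exNum r n (threeEdges r)) := by ring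
      _ ≤ (r + 1) * (2 * n.choose (r + 1)) := Nat.mul_le_mul_left _ h3
      _ = 2 * (n.choose (r + 1) * (r + 1)) := by ring
      _ = 2 * (n.choose r * (n - r)) := by rw [h4]
      _ = _ := by ring
  exact Nat.le_of_mul_le_mul_left h5 hpos

/-- The order of magnitude of the Turán density of `S^r K_3^2` is `1 / r`: for every `r ≥ 3` the
density exists and lies between `(1 / 64) * (1 / r)` and `2 * (1 / r)`. -/
theorem result : ∀ r : ℕ, 3 ≤ r → ∃ π : ℝ,
    Tendsto (fun n : ℕ => (exNum r n (threeEdges r) : ℝ) / (n.choose r : ℝ)) atTop (𝓝 π) ∧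
      1 / 64 * (1 / (r : ℝ)) ≤ π ∧ π ≤ 2 * (1 / (r : ℝ)) := by
  intro r hr
  have hr0 : (0 : ℝ) < (r : ℝ) := by
    exact_mod_cast (show 0 < r by omega)
  obtain ⟨π, hπ, hlow⟩ := limit_exists r (threeEdges r) (1 / 64 * (1 / (r : ℝ))) (by
    intro n hn
    have hc : (0 : ℝ) < (n.choose r : ℝ) := by exact_mod_cast Nat.choose_pos hn
    have h1 : (n.choose r : ℝ) ≤ 64 * (r : ℝ) * (exNum r n (threeEdges r) : ℝ) := by
      exact_mod_cast lower r n (by omega)
    rw [le_div_iff₀ hc]
    have h2 : 1 / 64 * (1 / (r : ℝ)) * (n.choose r : ℝ) ≤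
        1 / 64 * (1 / (r : ℝ)) * (64 * (r : ℝ) * (exNum r n (threeEdges r) : ℝ)) :=
      mul_le_mul_of_nonneg_left h1 (by positivity)
    refine h2.trans_eq ?_
    field_simp)
  refine ⟨π, hπ, hlow, ?_⟩
  apply le_of_tendsto hπ
  filter_upwards [eventually_ge_atTop (r + 1)] with n hn
  have hc : (0 : ℝ) < (n.choose r : ℝ) := by exact_mod_cast Nat.choose_pos (by omega)
  have h1 : ((r : ℝ) + 1) * (exNum r n (threeEdges r) : ℝ) ≤ 2 * (n.choose r : ℝ) := by
    exact_mod_cast upper r n (by omega) hn
  rw [div_le_iff₀ hc]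
  have h3 : (r : ℝ) * (exNum r n (threeEdges r) : ℝ) ≤ 2 * (n.choose r : ℝ) := by
    refine le_trans ?_ h1
    have : (0 : ℝ) ≤ (exNum r n (threeEdges r) : ℝ) := by positivity
    nlinarith
  calc (exNum r n (threeEdges r) : ℝ) = (r : ℝ) * (exNum r n (threeEdges r) : ℝ) / r := by
        field_simp
    _ ≤ 2 * (n.choose r : ℝ) / r := by
        apply div_le_div_of_nonneg_right h3 hr0.le
    _ = 2 * (1 / (r : ℝ)) * (n.choose r : ℝ) := by ring

end Pool.Agent.Results.MP_7618c8_co.Theta
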